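import Mathlib
import Pool.Agent.H255Z.Abc.C

/-- Exceptional set for the abc inequality with `q` rational points. The points are given by
coprime integer pairs `α l`, the variable point by a coprime pair `x`. The double sum is the
truncated counting function outside `S`, and the logarithm on the right is the height of `x`. -/
theorem Pool.Agent.Results.MP_4d5ce1_nt.AExceptionalSet.result
    (q : ℕ) (hq : 2 ≤ q) (α : Fin q → ℤ × ℤ) (hcop : ∀ l, IsCoprime (α l).1 (α l).2)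
    (hne : ∀ i j, i ≠ j → (α i).1 * (α j).2 - (α i).2 * (α j).1 ≠ 0) (S : Finset ℕ)
    (κ C η : ℝ) (hη : 0 < η) : ∃ D : ℝ, ∀ X : ℕ,
      ({x : ℤ × ℤ | IsCoprime x.1 x.2 ∧ |x.1| ≤ X ∧ |x.2| ≤ X ∧
        (∀ l, x.1 * (α l).2 - x.2 * (α l).1 ≠ 0) ∧
        (∑ l, ∑ p ∈ (x.1 * (α l).2 - x.2 * (α l).1).natAbs.primeFactors \ S, Real.log p) + C <
          ((q : ℝ) - κ) * Real.log ((max |x.1| |x.2| : ℤ) : ℝ)}.ncard : ℝ) ≤
        D * (X : ℝ) ^ (max (2 - κ) (6 / 5) + η) :=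
  Pool.Agent.H255Z.Abc.main q hq α hcop hne S κ C η hη
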